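import Pool.Agent.N128.TL.Bun
import Pool.Agent.N128.TL.Pub

set_option autoImplicit false

/-!
# Torsion line bundles on primitive symplectic varieties: the SYZ conjecture as posed fails in every
dimension `2 n ≥ 4`

`latt`, `IsTorusQuotient`, `IsForm`, `IsPrimitiveSymplectic`, `LineBundle`, `LineBundle.pow`,
`LineBundle.IsSection` and `LineBundle.IsTrivial` are defined in `Pool.Agent.W594.SYZ.Defs2`;
`IsHermitian`, `IsChernForm`, `IsNefForm`, `IsPositiveForm`, `IsDegenerateForm`,
`IsLagrangianFibration` and `Induces` in `Pool.Agent.W594.SYZ.TQDefs`; `IsCounterexample`,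
`HasOnlyConstantSections`, `IsNeverPullback` and `IsBetween` in `Pool.Agent.N128.TL.Pub`.
-/

namespace Pool.Agent.Results.MP_63735c_ag.TorsionBundles

open Pool.Agent.W594.SYZ2 Pool.Agent.N128.TL

/-- Let `n ≥ 2`, and let `A = ℂ² / Λ` be any two-dimensional complex torus, where `Λ` is the lattice
with the basis `b`.  There is a primitive symplectic variety `X = V / Γ` of dimension `2 n`,
`V = (ℂ²)^n`, a quotient of a torus isogenous to `A^n` by a finite group
(`2 Λ^n ⊆ latt Γ ⊆ Λ^n`), and a holomorphic line bundle `L` on `X` which is not isomorphic to `O_X`,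
is nef, satisfies `q_X(L) = 0` and induces no Lagrangian fibration of `X`.  Moreover `L²` is
isomorphic to `O_X`, for every `m` all global sections of `L^m` are constant functions on `V` (zero
for odd `m`), and no power `L^m`, `m ≥ 1`, is isomorphic to the pullback of an ample line bundle
under a map `X = V / Γ → W / Δ` given by a nonzero linear map `V → W`. -/
theorem result.{u} (n : ℕ) [NeZero n] (hn : 2 ≤ n) (b : Module.Basis (Fin 4) ℝ (Fin 2 → ℂ)) :
    Module.finrank ℂ (ZMod n → Fin 2 → ℂ) = 2 * n ∧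
    ∃ Γ : Subgroup ((ZMod n → Fin 2 → ℂ) ≃ᵃ[ℂ] (ZMod n → Fin 2 → ℂ)),
      IsPrimitiveSymplectic Γ ∧ IsBetween b Γ ∧
      ∃ L : LineBundle Γ, IsCounterexample.{u} L ∧ (L.pow 2).IsTrivial ∧
        HasOnlyConstantSections L ∧ IsNeverPullback.{u} L := by
  refine ⟨?_, Gam n b, primitive hn, ⟨fun x hx i => latt_coord hx i,
    fun x hx => two_smul_mem_latt hx⟩, bun n b, ⟨not_trivial, ⟨0, chern, fun _ => le_refl _, ?_⟩, ?_⟩,
    bun_two, ?_, ?_⟩
  · rw [Module.finrank_pi_fintype]
    simp [ZMod.card, mul_comm]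
  · refine ⟨fun _ _ => 1, ?_, fun _ => rfl⟩
    intro h
    have h1 := congrFun (congrFun h 0) 0
    exact one_ne_zero h1
  · intro W _ _ Δ π hfib
    exact no_fibration Δ π hfib
  · intro m s hs
    exact ⟨⟨s 0, fun v => section_const m s hs v 0⟩, fun hm v => section_zero m hm s hs v⟩
  · intro W _ _ Δ π hπ hmaps
    exact not_induces Δ π hπ hmaps

end Pool.Agent.Results.MP_63735c_ag.TorsionBundles
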